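import Mathlib

/-!
# MP_a0fa86_nt, Q1: the answer is yes

With `ξ = (√5 - 1)/2` and `Θ = (1/4) [[1, ξ], [ξ, ξ²]]`, condition (G) holds and every best
approximation vector `(x, y)` has `y = 0`; hence every tail of the sequence of best approximation
vectors spans a space of dimension exactly two.
-/

namespace Pool.Agent.Results.MP_a0fa86_nt.SpanTwo

/-- the sup-norm on `ℝ²` -/
noncomputable def nsup (v : Fin 2 → ℝ) : ℝ := max |v 0| |v 1|

/-- an integer vector as a real vector -/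
def toR (x : Fin 2 → ℤ) : Fin 2 → ℝ := fun i => (x i : ℝ)

/-- Condition (G). -/
def CondG (Θ : Matrix (Fin 2) (Fin 2) ℝ) : Prop :=
  ∀ x : Fin 2 → ℤ, x ≠ 0 → ∀ y : Fin 2 → ℤ, Θ.mulVec (toR x) ≠ toR y

/-- `z = (x, y)` is a best approximation vector: `x ≠ 0` and the only integer points `(x', y')` with
`|x'|_∞ ≤ |x|_∞` and `|Θ x' - y'|_∞ ≤ |Θ x - y|_∞` are `0` and `± z`. -/
def IsBest (Θ : Matrix (Fin 2) (Fin 2) ℝ) (z : (Fin 2 → ℤ) × (Fin 2 → ℤ)) : Prop :=
  z.1 ≠ 0 ∧ ∀ z' : (Fin 2 → ℤ) × (Fin 2 → ℤ),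
    nsup (toR z'.1) ≤ nsup (toR z.1) →
    nsup (Θ.mulVec (toR z'.1) - toR z'.2) ≤ nsup (Θ.mulVec (toR z.1) - toR z.2) →
    z' = 0 ∨ z' = z ∨ z' = -z

/-- `z_0, z_1, z_2, …` lists the best approximation vectors, one from each pair `± z`, ordered by
increasing `|x|_∞`. -/
def IsEnumeration (Θ : Matrix (Fin 2) (Fin 2) ℝ) (z : ℕ → (Fin 2 → ℤ) × (Fin 2 → ℤ)) : Prop :=
  (∀ ν, IsBest Θ (z ν)) ∧ StrictMono (fun ν => nsup (toR (z ν).1)) ∧
    ∀ w, IsBest Θ w → ∃ ν, w = z ν ∨ w = -z ν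

/-- an integer point of `ℝ⁴` as a real vector -/
def emb (z : (Fin 2 → ℤ) × (Fin 2 → ℤ)) : (Fin 2 → ℝ) × (Fin 2 → ℝ) := (toR z.1, toR z.2)

/-- `d(ν₀)`, the dimension of the span of the tail `{z_ν : ν ≥ ν₀}`. -/
noncomputable def d (z : ℕ → (Fin 2 → ℤ) × (Fin 2 → ℤ)) (ν₀ : ℕ) : ℕ :=
  Module.finrank ℝ (Submodule.span ℝ {v | ∃ ν, ν₀ ≤ ν ∧ v = emb (z ν)})

/-! ### The example -/

/-- `ξ = (√5 - 1)/2` -/
noncomputable def xi : ℝ := (Real.sqrt 5 - 1) / 2

lemma xi_sq : xi ^ 2 = 1 - xi := by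
  have h : Real.sqrt 5 ^ 2 = 5 := Real.sq_sqrt (by norm_num)
  unfold xi; nlinarith

lemma xi_lt : xi < 0.62 := by
  have : Real.sqrt 5 < 2.24 := by
    rw [Real.sqrt_lt' (by norm_num)]; norm_num
  unfold xi; linarith

lemma xi_gt : 0.61 < xi := by
  have : 2.22 < Real.sqrt 5 := by
    rw [Real.lt_sqrt (by norm_num)]; norm_num
  unfold xi; linarith

lemma xi_irr : Irrational xi := by
  have h5 : Irrational (Real.sqrt 5) := by
    have := Nat.Prime.irrational_sqrt (show Nat.Prime 5 by norm_num)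
    exact_mod_cast this
  intro ⟨q, hq⟩
  apply h5
  refine ⟨2 * q + 1, ?_⟩
  push_cast
  rw [hq]; unfold xi; ring

/-- `L(x) = x_0 + ξ x_1` -/
noncomputable def L (x : Fin 2 → ℤ) : ℝ := x 0 + xi * x 1

lemma eq_zero_of_irr {r : ℝ} (hr : Irrational r) {a b : ℤ} (h : (a : ℝ) + r * b = 0) :
    a = 0 ∧ b = 0 := by
  by_cases hb : b = 0
  · subst hb
    simp at h
    exact ⟨h, rfl⟩
  · exfalso
    apply hr
    refine ⟨-a / b, ?_⟩
    have hbR : (b : ℝ) ≠ 0 := by exact_mod_cast hb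
    push_cast
    field_simp
    linarith

lemma L_eq_zero {x : Fin 2 → ℤ} (h : L x = 0) : x = 0 := by
  obtain ⟨h0, h1⟩ := eq_zero_of_irr xi_irr (a := x 0) (b := x 1) h
  funext i
  fin_cases i
  · exact h0
  · exact h1

lemma L_inj {x x' : Fin 2 → ℤ} (h : L x = L x') : x = x' := by
  have h1 : L (x - x') = 0 := by
    simp only [L, Pi.sub_apply] at h ⊢
    push_cast
    linarith
  have := L_eq_zero h1
  exact sub_eq_zero.1 this

lemma L_neg (x : Fin 2 → ℤ) : L (-x) = - L x := by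
  simp only [L, Pi.neg_apply]; push_cast; ring

/-- the natural number `|x|_∞` -/
def natN (x : Fin 2 → ℤ) : ℕ := max (x 0).natAbs (x 1).natAbs

lemma nsup_toR (x : Fin 2 → ℤ) : nsup (toR x) = natN x := by
  unfold nsup natN toR
  rw [Nat.cast_max, Nat.cast_natAbs, Nat.cast_natAbs]
  push_cast; rfl

/-- the matrix `Θ` -/
noncomputable def Th : Matrix (Fin 2) (Fin 2) ℝ := !![1 / 4, xi / 4; xi / 4, xi ^ 2 / 4]

lemma Th_zero (x : Fin 2 → ℤ) : Th.mulVec (toR x) 0 = L x / 4 := by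
  have : Th.mulVec (toR x) 0 = ∑ j, Th 0 j * toR x j := rfl
  rw [this, Fin.sum_univ_two]
  simp [Th, toR, L]; ring

lemma Th_one (x : Fin 2 → ℤ) : Th.mulVec (toR x) 1 = xi * L x / 4 := by
  have : Th.mulVec (toR x) 1 = ∑ j, Th 1 j * toR x j := rfl
  rw [this, Fin.sum_univ_two]
  simp [Th, toR, L]; ring

lemma condG : CondG Th := by
  intro x hx y h
  have h0 := congrFun h 0
  have h1 := congrFun h 1
  rw [Th_zero] at h0
  rw [Th_one] at h1
  simp only [toR] at h0 h1
  have h2 : ((-y 1 : ℤ) : ℝ) + xi * (y 0 : ℝ) = 0 := by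
    push_cast; rw [← h0, ← h1]; ring
  obtain ⟨_, h3⟩ := eq_zero_of_irr xi_irr h2
  rw [h3] at h0
  apply hx
  apply L_eq_zero
  simp at h0
  linarith

lemma nsup_err_zero (x : Fin 2 → ℤ) : nsup (Th.mulVec (toR x) - toR 0) = |L x| / 4 := by
  have e0 : (Th.mulVec (toR x) - toR 0) 0 = L x / 4 := by
    rw [Pi.sub_apply, Th_zero]; simp [toR]
  have e1 : (Th.mulVec (toR x) - toR 0) 1 = xi * (L x / 4) := by
    rw [Pi.sub_apply, Th_one]; simp [toR]; ring
  unfold nsup
  rw [e0, e1, abs_mul]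
  have hx0 : 0 < xi := by linarith [xi_gt]
  have hx1 : xi < 1 := by linarith [xi_lt]
  rw [abs_of_pos hx0, max_eq_left, abs_div]
  · norm_num
  · nlinarith [abs_nonneg (L x / 4)]

/-- Dirichlet's theorem for `L`. -/
lemma dirichlet {n : ℕ} (hn : 1 ≤ n) : ∃ x : Fin 2 → ℤ, x ≠ 0 ∧ natN x ≤ n ∧
    |L x| ≤ 1 / ((n : ℝ) + 1) := by
  obtain ⟨j, k, hk0, hkn, hjk⟩ := Real.exists_int_int_abs_mul_sub_le xi (show 0 < n by omega)
  have hx0 := xi_gt
  have hx1 := xi_lt
  have hk1 : (1 : ℝ) ≤ k := by exact_mod_cast hk0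
  have hn1 : (1 : ℝ) ≤ n := by exact_mod_cast hn
  have hle : 1 / ((n : ℝ) + 1) ≤ 1 / 2 := by
    apply one_div_le_one_div_of_le (by norm_num); linarith
  rw [abs_le] at hjk
  have hj0 : -1 < j := by
    have : (-1 : ℝ) < j := by nlinarith
    exact_mod_cast this
  have hjk1 : j < k + 1 := by
    have : (j : ℝ) < k + 1 := by nlinarith
    exact_mod_cast this
  refine ⟨![-j, k], ?_, ?_, ?_⟩
  · intro h
    have := congrFun h 1
    simp at this
    omega
  · unfold natN
    simp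
    omega
  · have : L ![-j, k] = k * xi - j := by
      simp [L]; ring
    rw [this, abs_le]
    exact hjk

/-- **Key lemma.**  Approximations with `y ≠ 0` are worse than the Dirichlet bound in the plane
`y = 0`. -/
lemma key {n : ℕ} (hn : 1 ≤ n) {x y : Fin 2 → ℤ} (hx : natN x ≤ n) (hy : y ≠ 0) :
    1 / ((n : ℝ) + 1) / 4 < nsup (Th.mulVec (toR x) - toR y) := by
  by_contra hlt
  push Not at hlt
  set ε : ℝ := 1 / ((n : ℝ) + 1) / 4 with hε
  have hn1 : (1 : ℝ) ≤ n := by exact_mod_cast hn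
  have hx0 := xi_gt
  have hx1 := xi_lt
  have hsq := xi_sq
  set e0 : ℝ := L x / 4 - y 0 with he0
  set e1 : ℝ := xi * L x / 4 - y 1 with he1
  have h0 : |e0| ≤ ε := by
    have : (Th.mulVec (toR x) - toR y) 0 = e0 := by rw [Pi.sub_apply, Th_zero]; rfl
    rw [← this]
    exact (le_max_left _ _).trans hlt
  have h1 : |e1| ≤ ε := by
    have : (Th.mulVec (toR x) - toR y) 1 = e1 := by rw [Pi.sub_apply, Th_one]; rfl
    rw [← this]
    exact (le_max_right _ _).trans hlt
  have hxx : nsup (toR x) ≤ n := by rw [nsup_toR]; exact_mod_cast hx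
  have hxa : |(x 0 : ℝ)| ≤ n := (le_max_left _ _).trans hxx
  have hxb : |(x 1 : ℝ)| ≤ n := (le_max_right _ _).trans hxx
  have hL : |L x| ≤ 1.62 * n := by
    unfold L
    calc |(x 0 : ℝ) + xi * x 1| ≤ |(x 0 : ℝ)| + |xi * x 1| := abs_add_le _ _
      _ = |(x 0 : ℝ)| + xi * |(x 1 : ℝ)| := by
        rw [abs_mul xi, abs_of_pos (by linarith : (0:ℝ) < xi)]
      _ ≤ n + 0.62 * n := by
        have := abs_nonneg (x 1 : ℝ)
        nlinarith
      _ = 1.62 * n := by ring
  have hε0 : 0 < ε := by positivity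
  have hε1 : ε ≤ 1 / 8 := by
    rw [hε, div_div, ]
    apply one_div_le_one_div_of_le (by norm_num); linarith
  set a : ℝ := y 1 - xi * y 0 with ha
  set b : ℝ := y 1 + (1 + xi) * y 0 with hb
  have ha' : a = xi * e0 - e1 := by rw [ha, he0, he1]; ring
  have haε : |a| ≤ 1.62 * ε := by
    rw [ha']
    calc |xi * e0 - e1| ≤ |xi * e0| + |e1| := abs_sub _ _
      _ = xi * |e0| + |e1| := by rw [abs_mul, abs_of_pos (by linarith : (0:ℝ) < xi)]
      _ ≤ 0.62 * ε + ε := by
        have := abs_nonneg e0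
        nlinarith
      _ = 1.62 * ε := by ring
  have hy0 : |(y 0 : ℝ)| ≤ 0.405 * n + ε := by
    have : (y 0 : ℝ) = L x / 4 - e0 := by rw [he0]; ring
    rw [this]
    calc |L x / 4 - e0| ≤ |L x / 4| + |e0| := abs_sub _ _
      _ = |L x| / 4 + |e0| := by rw [abs_div]; norm_num
      _ ≤ 0.405 * n + ε := by linarith
  have hbb : b = a + (1 + 2 * xi) * y 0 := by rw [ha, hb]; ring
  have hbn : |b| ≤ 1.4 * n := by
    rw [hbb]
    calc |a + (1 + 2 * xi) * y 0| ≤ |a| + |(1 + 2 * xi) * y 0| := abs_add_le _ _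
      _ = |a| + (1 + 2 * xi) * |(y 0 : ℝ)| := by
        rw [abs_mul, abs_of_pos (by linarith : (0:ℝ) < 1 + 2 * xi)]
      _ ≤ 1.62 * ε + 2.24 * (0.405 * n + ε) := by
        have := abs_nonneg (y 0 : ℝ)
        nlinarith
      _ ≤ 1.4 * n := by nlinarith
  have hab : |a * b| < 1 := by
    rw [abs_mul]
    have hεn : ε * n ≤ 1 / 4 := by
      rw [hε]
      have : 1 / ((n : ℝ) + 1) / 4 * n = (n / (n + 1)) / 4 := by ring
      rw [this]
      have : (n : ℝ) / (n + 1) ≤ 1 := by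
        rw [div_le_one (by positivity)]; linarith
      linarith
    calc |a| * |b| ≤ (1.62 * ε) * (1.4 * n) :=
          mul_le_mul haε hbn (abs_nonneg _) (by positivity)
      _ = 2.268 * (ε * n) := by ring
      _ ≤ 2.268 * (1 / 4) := by nlinarith
      _ < 1 := by norm_num
  have hint : a * b = ((y 1 ^ 2 + y 1 * y 0 - y 0 ^ 2 : ℤ) : ℝ) := by
    rw [ha, hb]; push_cast
    have : (y 1 - xi * y 0) * (y 1 + (1 + xi) * y 0)
        = (y 1 : ℝ) ^ 2 + y 1 * y 0 - (xi + xi ^ 2) * y 0 ^ 2 := by ring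
    rw [this, hsq]; ring
  rw [hint] at hab
  have hz : (y 1 ^ 2 + y 1 * y 0 - y 0 ^ 2 : ℤ) = 0 := by
    have : |(y 1 ^ 2 + y 1 * y 0 - y 0 ^ 2 : ℤ)| < 1 := by exact_mod_cast hab
    exact Int.abs_lt_one_iff.1 this
  rw [hz] at hint
  simp only [Int.cast_zero, mul_eq_zero] at hint
  apply hy
  rcases hint with h | h
  · have h2 : ((-y 1 : ℤ) : ℝ) + xi * (y 0 : ℝ) = 0 := by push_cast; linarith
    obtain ⟨h3, h4⟩ := eq_zero_of_irr xi_irr h2
    funext i
    fin_cases i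
    · exact h4
    · change y 1 = 0; omega
  · have h2 : ((y 1 + y 0 : ℤ) : ℝ) + xi * (y 0 : ℝ) = 0 := by push_cast; linarith
    obtain ⟨h3, h4⟩ := eq_zero_of_irr xi_irr h2
    funext i
    fin_cases i
    · exact h4
    · change y 1 = 0; omega

lemma natN_pos {x : Fin 2 → ℤ} (hx : x ≠ 0) : 1 ≤ natN x := by
  by_contra h
  push Not at h
  apply hx
  unfold natN at h
  funext i
  fin_cases i
  · change x 0 = 0; omega
  · change x 1 = 0; omega

/-- Best approximation vectors have `y = 0`. -/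
lemma snd_eq_zero {z : (Fin 2 → ℤ) × (Fin 2 → ℤ)} (hz : IsBest Th z) : z.2 = 0 := by
  by_contra hy
  obtain ⟨hx, hbest⟩ := hz
  have hn := natN_pos hx
  obtain ⟨x', hx', hN, hL⟩ := dirichlet hn
  have hk := key hn (le_refl (natN z.1)) hy
  have := hbest (x', 0) (by rw [nsup_toR, nsup_toR]; exact_mod_cast hN) (by
    change nsup (Th.mulVec (toR x') - toR 0) ≤ _
    rw [nsup_err_zero]
    linarith)
  rcases this with h | h | h
  · exact hx' (congrArg Prod.fst h)
  · exact hy (congrArg Prod.snd h).symm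
  · have h2 := congrArg Prod.snd h
    simp only [Prod.snd_neg] at h2
    apply hy
    rw [← neg_eq_zero]; exact h2.symm

/-- There are best approximation vectors with arbitrarily large `|x|_∞`. -/
lemma exists_best (M : ℕ) : ∃ z, IsBest Th z ∧ M < natN z.1 := by
  classical
  -- a positive lower bound for `|L|` on the nonzero points of norm at most `M`
  obtain ⟨δ, hδ, hδM⟩ : ∃ δ : ℝ, 0 < δ ∧ ∀ x : Fin 2 → ℤ, x ≠ 0 → natN x ≤ M → δ ≤ |L x| := by
    set F : Finset (Fin 2 → ℤ) :=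
      (Finset.Icc (fun _ => -(M : ℤ)) (fun _ => (M : ℤ))).filter (· ≠ 0) with hF
    have hmem : ∀ x : Fin 2 → ℤ, x ≠ 0 → natN x ≤ M → x ∈ F := by
      intro x hx hM
      rw [hF, Finset.mem_filter, Finset.mem_Icc]
      unfold natN at hM
      refine ⟨⟨fun i => ?_, fun i => ?_⟩, hx⟩
      · fin_cases i
        · change -(M : ℤ) ≤ x 0; omega
        · change -(M : ℤ) ≤ x 1; omega
      · fin_cases i
        · change x 0 ≤ (M : ℤ); omega
        · change x 1 ≤ (M : ℤ); omega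
    rcases F.eq_empty_or_nonempty with hE | hE
    · refine ⟨1, one_pos, fun x hx hM => ?_⟩
      have := hmem x hx hM
      rw [hE] at this
      simp at this
    · obtain ⟨x0, hx0, hmin⟩ := F.exists_min_image (fun x => |L x|) hE
      refine ⟨|L x0|, ?_, fun x hx hM => hmin x (hmem x hx hM)⟩
      rw [abs_pos]
      intro h
      have := L_eq_zero h
      rw [hF, Finset.mem_filter] at hx0
      exact hx0.2 this
  obtain ⟨n, hn⟩ := exists_nat_one_div_lt hδ
  obtain ⟨w, hw0, hwn, hwL⟩ := dirichlet (n := n + 1) (by omega)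
  -- the finite set of candidates
  set S : Set ℕ := {k | ∃ x : Fin 2 → ℤ, x ≠ 0 ∧ natN x = k ∧ |L x| < δ} with hS
  have hwδ : |L w| < δ := by
    refine lt_of_le_of_lt hwL (lt_of_le_of_lt ?_ hn)
    push_cast
    apply one_div_le_one_div_of_le (by positivity); linarith
  have hSne : S.Nonempty := ⟨natN w, w, hw0, rfl, hwδ⟩
  set k := sInf S with hk
  have hkS : k ∈ S := Nat.sInf_mem hSne
  have hkmin : ∀ x : Fin 2 → ℤ, x ≠ 0 → |L x| < δ → k ≤ natN x := fun x hx hL =>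
    Nat.sInf_le ⟨x, hx, rfl, hL⟩
  -- minimise `|L|` among the points of norm `k`
  obtain ⟨x1, hx1, hx1k, hx1L⟩ := hkS
  set T : Finset (Fin 2 → ℤ) :=
    (Finset.Icc (fun _ => -(k : ℤ)) (fun _ => (k : ℤ))).filter (fun x => x ≠ 0 ∧ natN x = k)
    with hT
  have hTmem : ∀ x : Fin 2 → ℤ, x ≠ 0 → natN x = k → x ∈ T := by
    intro x hx hM
    rw [hT, Finset.mem_filter, Finset.mem_Icc]
    refine ⟨?_, hx, hM⟩
    unfold natN at hM
    refine ⟨fun i => ?_, fun i => ?_⟩
    · fin_cases i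
      · change -(k : ℤ) ≤ x 0; omega
      · change -(k : ℤ) ≤ x 1; omega
    · fin_cases i
      · change x 0 ≤ (k : ℤ); omega
      · change x 1 ≤ (k : ℤ); omega
  obtain ⟨x, hxT, hxmin⟩ := T.exists_min_image (fun x => |L x|) ⟨x1, hTmem x1 hx1 hx1k⟩
  have hx0 : x ≠ 0 := by rw [hT, Finset.mem_filter] at hxT; exact hxT.2.1
  have hxk : natN x = k := by rw [hT, Finset.mem_filter] at hxT; exact hxT.2.2
  have hxL : |L x| < δ := lt_of_le_of_lt (hxmin x1 (hTmem x1 hx1 hx1k)) hx1L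
  -- minimality
  have hmin : ∀ x' : Fin 2 → ℤ, x' ≠ 0 → natN x' ≤ k → |L x| ≤ |L x'| := by
    intro x' hx' hle
    by_contra hlt
    push Not at hlt
    have h1 := hkmin x' hx' (hlt.trans hxL)
    have h2 := hxmin x' (hTmem x' hx' (le_antisymm hle h1))
    linarith
  have hk1 : 1 ≤ k := by rw [← hxk]; exact natN_pos hx0
  have hxD : |L x| ≤ 1 / ((k : ℝ) + 1) := by
    obtain ⟨x'', hx'', hN'', hL''⟩ := dirichlet hk1
    exact (hmin x'' hx'' hN'').trans hL''
  refine ⟨(x, 0), ⟨hx0, ?_⟩, ?_⟩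
  · rintro ⟨x', y'⟩ h1 h2
    simp only at h1 h2
    rw [nsup_toR, nsup_toR] at h1
    have h1' : natN x' ≤ k := by rw [← hxk]; exact_mod_cast h1
    rw [nsup_err_zero] at h2
    have hy' : y' = 0 := by
      by_contra hne
      have := key hk1 h1' hne
      linarith
    subst hy'
    rw [nsup_err_zero] at h2
    by_cases hx' : x' = 0
    · left; rw [hx']; rfl
    · right
      have h3 := hmin x' hx' h1'
      have h4 : |L x'| = |L x| := le_antisymm (by linarith) h3
      rcases abs_eq_abs.1 h4 with h | h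
      · left; rw [L_inj h]
      · right
        rw [← L_neg] at h
        rw [L_inj h]
        simp
  · by_contra hle
    push Not at hle
    have := hδM x hx0 hle
    linarith

lemma natN_neg (x : Fin 2 → ℤ) : natN (-x) = natN x := by
  unfold natN; simp

/-- Two best approximation vectors with the same `|x|_∞` agree up to sign. -/
lemma unique_of_norm {z w : (Fin 2 → ℤ) × (Fin 2 → ℤ)} (hz : IsBest Th z) (hw : IsBest Th w)
    (h : natN z.1 = natN w.1) : w = z ∨ w = -z := by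
  rcases le_total (nsup (Th.mulVec (toR w.1) - toR w.2)) (nsup (Th.mulVec (toR z.1) - toR z.2))
    with hle | hle
  · rcases hz.2 w (by rw [nsup_toR, nsup_toR, h]) hle with h1 | h1 | h1
    · exact absurd (congrArg Prod.fst h1) hw.1
    · exact Or.inl h1
    · exact Or.inr h1
  · rcases hw.2 z (by rw [nsup_toR, nsup_toR, h]) hle with h1 | h1 | h1
    · exact absurd (congrArg Prod.fst h1) hz.1
    · exact Or.inl h1.symm
    · right; rw [h1, neg_neg]

lemma exists_enumeration : ∃ z, IsEnumeration Th z := by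
  classical
  set S : Set ℕ := {k | ∃ z, IsBest Th z ∧ natN z.1 = k} with hS
  have hinf : S.Infinite := by
    rw [Set.infinite_iff_exists_gt]
    intro M
    obtain ⟨z, hz, hM⟩ := exists_best M
    exact ⟨natN z.1, ⟨z, hz, rfl⟩, hM⟩
  have hchoose : ∀ ν : ℕ, ∃ z, IsBest Th z ∧ natN z.1 = Nat.nth (· ∈ S) ν := by
    intro ν
    exact Nat.nth_mem_of_infinite hinf ν
  choose z hz hzn using hchoose
  refine ⟨z, hz, ?_, ?_⟩
  · intro μ ν hlt
    simp only [nsup_toR, hzn]
    exact_mod_cast Nat.nth_strictMono hinf hlt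
  · intro w hw
    have hwS : natN w.1 ∈ S := ⟨w, hw, rfl⟩
    obtain ⟨ν, hν⟩ : ∃ ν, Nat.nth (· ∈ S) ν = natN w.1 := by
      refine ⟨Nat.count (· ∈ S) (natN w.1), ?_⟩
      exact Nat.nth_count hwS
    refine ⟨ν, ?_⟩
    exact unique_of_norm (hz ν) hw (by rw [hzn, hν])

/-- linear independence -/
lemma indep {z w : (Fin 2 → ℤ) × (Fin 2 → ℤ)} (hz : IsBest Th z) (hw : IsBest Th w)
    (h : nsup (toR z.1) < nsup (toR w.1)) : LinearIndependent ℝ ![emb z, emb w] := by
  rw [LinearIndependent.pair_iff]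
  have hz2 := snd_eq_zero hz
  have hw2 := snd_eq_zero hw
  have hNz : 0 < nsup (toR z.1) := by
    rw [nsup_toR]; exact_mod_cast natN_pos hz.1
  -- the error of `w` is smaller than that of `z`
  have herr : |L w.1| < |L z.1| := by
    by_contra hle
    push Not at hle
    have h1 := hw.2 z h.le (by rw [hz2, hw2, nsup_err_zero, nsup_err_zero]; linarith)
    rcases h1 with h1 | h1 | h1
    · exact hz.1 (congrArg Prod.fst h1)
    · rw [h1] at h; exact lt_irrefl _ h
    · rw [h1] at h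
      rw [nsup_toR, nsup_toR] at h
      simp only [Prod.fst_neg, natN_neg] at h
      exact lt_irrefl _ h
  intro s t hst
  have hf : s • toR z.1 + t • toR w.1 = 0 := congrArg Prod.fst hst
  have h0 : s * (z.1 0 : ℝ) + t * (w.1 0 : ℝ) = 0 := congrFun hf 0
  have h1 : s * (z.1 1 : ℝ) + t * (w.1 1 : ℝ) = 0 := congrFun hf 1
  have hL : s * L z.1 = - (t * L w.1) := by
    unfold L
    have : s * ((z.1 0 : ℝ) + xi * z.1 1) + t * ((w.1 0 : ℝ) + xi * w.1 1)
      = (s * (z.1 0 : ℝ) + t * (w.1 0 : ℝ)) + xi * (s * (z.1 1 : ℝ) + t * (w.1 1 : ℝ)) := by ring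
    rw [h0, h1] at this
    linarith
  have habs : |s| * |L z.1| = |t| * |L w.1| := by
    rw [← abs_mul, ← abs_mul, hL, abs_neg]
  have hN : |s| * nsup (toR z.1) = |t| * nsup (toR w.1) := by
    unfold nsup toR
    rw [mul_max_of_nonneg _ _ (abs_nonneg s), mul_max_of_nonneg _ _ (abs_nonneg t)]
    simp only [← abs_mul]
    have e0 : s * (z.1 0 : ℝ) = -(t * (w.1 0 : ℝ)) := by linarith
    have e1 : s * (z.1 1 : ℝ) = -(t * (w.1 1 : ℝ)) := by linarith
    rw [e0, e1, abs_neg, abs_neg]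
  by_cases ht : t = 0
  · subst ht
    simp only [abs_zero, zero_mul] at hN
    rcases mul_eq_zero.1 hN with h2 | h2
    · exact ⟨abs_eq_zero.1 h2, rfl⟩
    · exact absurd h2 hNz.ne'
  · exfalso
    have ht' : 0 < |t| := abs_pos.2 ht
    -- `|s| > |t|` and `|s| < |t|`
    have hs' : |t| < |s| := by
      by_contra hle
      push Not at hle
      have : |s| * nsup (toR z.1) < |t| * nsup (toR w.1) := by
        calc |s| * nsup (toR z.1) ≤ |t| * nsup (toR z.1) :=
              mul_le_mul_of_nonneg_right hle hNz.le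
          _ < |t| * nsup (toR w.1) := mul_lt_mul_of_pos_left h ht'
      linarith
    have hLz : 0 < |L z.1| := lt_of_le_of_lt (abs_nonneg _) herr
    have : |t| * |L w.1| < |s| * |L z.1| := by
      calc |t| * |L w.1| ≤ |t| * |L z.1| := mul_le_mul_of_nonneg_left herr.le ht'.le
        _ < |s| * |L z.1| := mul_lt_mul_of_pos_right hs' hLz
    linarith

lemma d_eq_two {z : ℕ → (Fin 2 → ℤ) × (Fin 2 → ℤ)} (hz : IsEnumeration Th z) (ν₀ : ℕ) :
    d z ν₀ = 2 := by
  obtain ⟨hbest, hmono, -⟩ := hz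
  set V := Submodule.span ℝ {v | ∃ ν, ν₀ ≤ ν ∧ v = emb (z ν)} with hV
  have hle : d z ν₀ ≤ 2 := by
    -- contained in the image of `ℝ² → ℝ⁴`
    have h1 : V ≤ LinearMap.range (LinearMap.inl ℝ (Fin 2 → ℝ) (Fin 2 → ℝ)) := by
      rw [hV, Submodule.span_le]
      rintro v ⟨ν, _, rfl⟩
      refine ⟨toR (z ν).1, ?_⟩
      have := snd_eq_zero (hbest ν)
      simp only [emb, this, LinearMap.inl_apply]
      congr 1
      funext i; simp [toR]
    have h2 := Submodule.finrank_mono h1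
    have h3 : Module.finrank ℝ (LinearMap.range (LinearMap.inl ℝ (Fin 2 → ℝ) (Fin 2 → ℝ))) = 2 := by
      rw [LinearMap.finrank_range_of_inj LinearMap.inl_injective]
      simp
    rw [h3] at h2
    exact h2
  have hge : 2 ≤ d z ν₀ := by
    have hind := indep (hbest ν₀) (hbest (ν₀ + 1)) (hmono (Nat.lt_succ_self ν₀))
    have hsub : Submodule.span ℝ (Set.range ![emb (z ν₀), emb (z (ν₀ + 1))]) ≤ V := by
      rw [Submodule.span_le]
      rintro v ⟨i, rfl⟩
      apply Submodule.subset_span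
      fin_cases i
      · exact ⟨ν₀, le_rfl, rfl⟩
      · exact ⟨ν₀ + 1, by omega, rfl⟩
    have h2 := Submodule.finrank_mono hsub
    rw [finrank_span_eq_card hind] at h2
    exact h2
  exact le_antisymm hle hge

/-- **The answer to Q1 is yes.**  There is a real `2 × 2` matrix `Θ` satisfying (G) for which, for
the listing of the best approximation vectors (which exists, and for every such listing),
`d(ν₀) = 2` for every `ν₀`. -/
theorem result : ∃ Θ : Matrix (Fin 2) (Fin 2) ℝ, CondG Θ ∧ (∃ z, IsEnumeration Θ z) ∧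
    ∀ z, IsEnumeration Θ z → ∀ ν₀, d z ν₀ = 2 :=
  ⟨Th, condG, exists_enumeration, fun _ hz ν₀ => d_eq_two hz ν₀⟩

end Pool.Agent.Results.MP_a0fa86_nt.SpanTwo
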